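import Mathlib
import Pool.Agent.TH949.TX.Defs

set_option autoImplicit false

open Complex MeasureTheory Set Filter Topology
open Pool.Agent.W189.TP (DS)
open Pool.Agent.TH949.TX

namespace Pool.Agent.TH645.TX

/-- a function with derivative zero on a ball is constant there -/
theorem ball_const {f : ℂ → ℂ} {c : ℂ} {R : ℝ} (h : ∀ z ∈ Metric.ball c R, HasDerivAt f 0 z)
    {z w : ℂ} (hz : z ∈ Metric.ball c R) (hw : w ∈ Metric.ball c R) : f z = f w := by
  have hd : DifferentiableOn ℂ f (Metric.ball c R) := fun x hx =>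
    (h x hx).differentiableAt.differentiableWithinAt
  refine IsOpen.is_const_of_deriv_eq_zero Metric.isOpen_ball
    (convex_ball c R).isPreconnected hd ?_ hz hw
  intro x hx
  exact (h x hx).deriv

theorem t_log {q : ℂ → ℂ} {z0 w0 : ℂ} {R r : ℝ} (hr : 0 < r) (hrR : r < R)
    (hq : ∀ z ∈ Metric.ball z0 R, DifferentiableAt ℂ q z) (hq0 : ∀ z ∈ Metric.ball z0 R, q z ≠ 0)
    {g : ℂ → ℂ} (hg : ∀ z ∈ Metric.ball z0 r, DifferentiableAt ℂ g z)
    (hgq : ∀ z ∈ Metric.ball z0 r, q z = cexp (g z)) :
    ∃ h : ℂ → ℂ, (∀ z ∈ Metric.ball z0 R, DifferentiableAt ℂ h z) ∧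
      (∀ z ∈ Metric.ball z0 R, q z = cexp (h z)) ∧ ∀ z ∈ Metric.ball z0 r, h z = g z := by
  have hR : 0 < R := hr.trans hrR
  have hz0R : z0 ∈ Metric.ball z0 R := Metric.mem_ball_self hR
  have hz0r : z0 ∈ Metric.ball z0 r := Metric.mem_ball_self hr
  have hsub : Metric.ball z0 r ⊆ Metric.ball z0 R := Metric.ball_subset_ball hrR.le
  have hqd : DifferentiableOn ℂ q (Metric.ball z0 R) := fun z hz =>
    (hq z hz).differentiableWithinAt
  have hq'd : DifferentiableOn ℂ (deriv q) (Metric.ball z0 R) := hqd.deriv Metric.isOpen_ball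
  have hquot : DifferentiableOn ℂ (fun z => deriv q z / q z) (Metric.ball z0 R) :=
    hq'd.div hqd hq0
  obtain ⟨k, hk⟩ := hquot.isExactOn_ball
  let h : ℂ → ℂ := fun z => k z - k z0 + g z0
  have hh : ∀ z ∈ Metric.ball z0 R, HasDerivAt h (deriv q z / q z) z := by
    intro z hz
    exact ((hk z hz).sub_const (k z0)).add_const (g z0)
  have hh0 : h z0 = g z0 := by simp [h]
  have hexp : ∀ z ∈ Metric.ball z0 R, q z = cexp (h z) := by
    have hconst : ∀ z ∈ Metric.ball z0 R,
        HasDerivAt (fun z => q z * cexp (-h z)) 0 z := by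
      intro z hz
      have h1 := (hq z hz).hasDerivAt
      have h2 := ((hh z hz).neg).cexp
      have h3 := h1.mul h2
      have e : deriv q z * cexp (-h z) + q z * (cexp (-h z) * -(deriv q z / q z)) = 0 := by
        field_simp [hq0 z hz]
        ring
      rw [← e]
      exact h3
    intro z hz
    have e1 : q z * cexp (-h z) = q z0 * cexp (-h z0) := ball_const hconst hz hz0R
    rw [hh0, hgq z0 hz0r, ← Complex.exp_add, add_neg_cancel, Complex.exp_zero] at e1
    calc q z = q z * cexp (-h z) * cexp (h z) := by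
          rw [mul_assoc, ← Complex.exp_add, neg_add_cancel, Complex.exp_zero, mul_one]
      _ = cexp (h z) := by rw [e1, one_mul]
  refine ⟨h, fun z hz => (hh z hz).differentiableAt, hexp, ?_⟩
  intro z hz
  have hconst : ∀ z ∈ Metric.ball z0 r, HasDerivAt (fun z => h z - g z) 0 z := by
    intro z hz
    have hzR := hsub hz
    have h1 := (hg z hz).hasDerivAt
    have h2 : HasDerivAt q (cexp (g z) * deriv g z) z := by
      refine (h1.cexp).congr_of_eventuallyEq ?_
      filter_upwards [Metric.isOpen_ball.mem_nhds hz] with y hy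
      exact hgq y hy
    have h3 : deriv q z = q z * deriv g z := by rw [h2.deriv, ← hgq z hz]
    have h4 : deriv q z / q z = deriv g z := by
      rw [h3, mul_div_cancel_left₀ _ (hq0 z hzR)]
    have h5 := (hh z hzR).sub h1
    rw [h4, sub_self] at h5
    exact h5
  have e1 : h z - g z = h z0 - g z0 := ball_const hconst hz hz0r
  rw [hh0, sub_self] at e1
  exact sub_eq_zero.1 e1

end Pool.Agent.TH645.TX
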