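import Mathlib
import Pool.Agent.TH949.TX.SDefs
import Pool.Agent.TH949.TX.Expl

/-! Partial summation for the Gaussian weighted sum (job TXS-PARTS). -/

set_option autoImplicit false

open Complex MeasureTheory Set Filter Topology
open Pool.Agent.W189.TP (DS)

namespace Pool.Agent.TH645.TX

open Pool.Agent.TH949.TX

/-- the function `u e^{-su} gk κ (u - Y)` -/
noncomputable def phi (s : ℂ) (κ Y u : ℝ) : ℂ :=
  (u : ℂ) * (cexp (-(s * u)) * (gk κ (u - Y) : ℂ))

/-- its derivative -/
noncomputable def dphi (s : ℂ) (κ Y u : ℝ) : ℂ :=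
  (cexp (-(s * u)) * (gk κ (u - Y) : ℂ)) * (1 - s * u - (u : ℂ) * (u - Y) / (2 * κ))

theorem gk_pos_le (κ u : ℝ) : 0 ≤ gk κ u := by
  unfold gk
  positivity

theorem hasDerivAt_gk {κ : ℝ} (hκ : 0 < κ) (Y u : ℝ) :
    HasDerivAt (fun u : ℝ => gk κ (u - Y)) (gk κ (u - Y) * (-((u - Y) / (2 * κ)))) u := by
  unfold gk
  have h1 : HasDerivAt (fun u : ℝ => -((u - Y) ^ 2 / (4 * κ))) (-((u - Y) / (2 * κ))) u := by
    have h2 : HasDerivAt (fun u : ℝ => u - Y) 1 u := (hasDerivAt_id u).sub_const Y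
    have h3 := ((h2.pow 2).div_const (4 * κ)).neg
    refine h3.congr_deriv ?_
    field_simp
    ring
  have h4 := (h1.exp).const_mul ((Real.sqrt (4 * Real.pi * κ))⁻¹)
  refine h4.congr_deriv ?_
  ring

theorem hasDerivAt_phi (s : ℂ) {κ : ℝ} (hκ : 0 < κ) (Y u : ℝ) :
    HasDerivAt (phi s κ Y) (dphi s κ Y u) u := by
  unfold phi dphi
  have h0 : HasDerivAt (fun u : ℝ => (u : ℂ)) 1 u := by
    simpa using (hasDerivAt_id u).ofReal_comp
  have h1 : HasDerivAt (fun u : ℝ => cexp (-(s * u))) (cexp (-(s * u)) * (-s)) u := by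
    have h2 : HasDerivAt (fun u : ℝ => -(s * (u : ℂ))) (-(s * 1)) u := (h0.const_mul s).neg
    rw [mul_one] at h2
    exact h2.cexp
  have h3 := (hasDerivAt_gk hκ Y u).ofReal_comp
  have h4 := h0.mul (h1.mul h3)
  refine h4.congr_deriv ?_
  simp only [Pi.mul_apply]
  push_cast
  ring

theorem norm_dphi (s : ℂ) (κ Y u : ℝ) : ‖dphi s κ Y u‖ = (Real.exp (-(s.re * u)) * gk κ (u - Y)) *
    ‖1 - s * u - (u : ℂ) * (u - Y) / (2 * κ)‖ := by
  unfold dphi
  rw [norm_mul, norm_mul, Complex.norm_exp, Complex.norm_real, Real.norm_of_nonneg (gk_pos_le _ _)]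
  simp

theorem norm_phi (s : ℂ) (κ Y u : ℝ) : ‖phi s κ Y u‖ = |u| * (Real.exp (-(s.re * u)) * gk κ (u - Y)) := by
  unfold phi
  rw [norm_mul, norm_mul, Complex.norm_exp, Complex.norm_real, Complex.norm_real, Real.norm_eq_abs,
    Real.norm_of_nonneg (gk_pos_le _ _)]
  simp

theorem continuous_gk (κ Y : ℝ) : Continuous fun u : ℝ => gk κ (u - Y) := by
  unfold gk
  fun_prop

theorem continuous_phi (s : ℂ) (κ Y : ℝ) : Continuous (phi s κ Y) := by
  unfold phi
  have := continuous_gk κ Y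
  fun_prop

theorem continuous_dphi (s : ℂ) (κ Y : ℝ) : Continuous (dphi s κ Y) := by
  unfold dphi
  have := continuous_gk κ Y
  fun_prop

/-- Gaussian times exponential is integrable -/
theorem int_gk {κ : ℝ} (hκ : 0 < κ) (Y c : ℝ) : Integrable fun u : ℝ => Real.exp (c * u) * gk κ (u - Y) := by
  have hb : (((-(1 / (4 * κ)) : ℝ) : ℂ)).re < 0 := by
    rw [Complex.ofReal_re]
    have : 0 < 1 / (4 * κ) := by positivity
    linarith
  have h1 := integrable_cexp_quadratic' hb (((c + Y / (2 * κ) : ℝ) : ℂ)) (((-(Y ^ 2 / (4 * κ)) : ℝ) : ℂ))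
  have h2 := h1.norm.const_mul ((Real.sqrt (4 * Real.pi * κ))⁻¹)
  refine h2.congr (Eventually.of_forall fun u => ?_)
  simp only
  rw [Complex.norm_exp]
  unfold gk
  have h3 : ((((-(1 / (4 * κ)) : ℝ) : ℂ) * (u : ℂ) ^ 2 + ((c + Y / (2 * κ) : ℝ) : ℂ) * u +
      ((-(Y ^ 2 / (4 * κ)) : ℝ) : ℂ))).re = -(1 / (4 * κ)) * u ^ 2 + (c + Y / (2 * κ)) * u + -(Y ^ 2 / (4 * κ)) := by
    rw [← Complex.ofReal_pow, ← Complex.ofReal_mul, ← Complex.ofReal_mul, ← Complex.ofReal_add,
      ← Complex.ofReal_add, Complex.ofReal_re]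
  rw [h3, mul_left_comm, ← Real.exp_add]
  congr 2
  field_simp
  ring

/-- the polynomial factor is bounded by exponentials -/
theorem poly_le (s : ℂ) {κ : ℝ} (hκ : 0 < κ) (Y u : ℝ) : ‖1 - s * u - (u : ℂ) * (u - Y) / (2 * κ)‖ ≤
    (1 + ‖s‖ + (2 + |Y|) / (2 * κ)) * (Real.exp u + Real.exp (-u)) := by
  have h1 : ‖1 - s * u - (u : ℂ) * (u - Y) / (2 * κ)‖ ≤ 1 + ‖s‖ * |u| + |u| * (|u| + |Y|) / (2 * κ) := by
    refine (norm_sub_le _ _).trans (add_le_add ((norm_sub_le _ _).trans (add_le_add ?_ ?_)) ?_)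
    · simp
    · rw [norm_mul, Complex.norm_real, Real.norm_eq_abs]
    · rw [norm_div, norm_mul, ← Complex.ofReal_sub, Complex.norm_real, Complex.norm_real, Real.norm_eq_abs,
        Real.norm_eq_abs]
      have h2 : ‖(2 * (κ : ℂ))‖ = 2 * κ := by
        rw [norm_mul, Complex.norm_real, Real.norm_of_nonneg hκ.le]
        simp
      rw [h2]
      gcongr
      exact abs_sub _ _
  have h3 : Real.exp |u| ≤ Real.exp u + Real.exp (-u) := by
    rcases le_total 0 u with h | h
    · rw [abs_of_nonneg h]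
      linarith [Real.exp_pos (-u)]
    · rw [abs_of_nonpos h]
      linarith [Real.exp_pos u]
  have h4 : 1 ≤ Real.exp |u| := Real.one_le_exp (abs_nonneg u)
  have h5 : |u| ≤ Real.exp |u| := by
    have := Real.add_one_le_exp |u|
    linarith
  have h6 : |u| * |u| ≤ 2 * Real.exp |u| := by
    have := Real.quadratic_le_exp_of_nonneg (abs_nonneg u)
    nlinarith [abs_nonneg u]
  have h7 : 1 + ‖s‖ * |u| + |u| * (|u| + |Y|) / (2 * κ) ≤ (1 + ‖s‖ + (2 + |Y|) / (2 * κ)) * Real.exp |u| := by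
    have e1 : ‖s‖ * |u| ≤ ‖s‖ * Real.exp |u| := mul_le_mul_of_nonneg_left h5 (norm_nonneg _)
    have e2 : |u| * (|u| + |Y|) / (2 * κ) ≤ (2 + |Y|) * Real.exp |u| / (2 * κ) := by
      refine div_le_div_of_nonneg_right ?_ (by positivity)
      have := mul_le_mul_of_nonneg_left h5 (abs_nonneg Y)
      nlinarith
    have e3 : (2 + |Y|) * Real.exp |u| / (2 * κ) = (2 + |Y|) / (2 * κ) * Real.exp |u| := by ring
    rw [e3] at e2
    nlinarith
  refine h1.trans (h7.trans (mul_le_mul_of_nonneg_left h3 ?_))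
  have := abs_nonneg Y
  positivity

/-- `e^{2u} |φ'(u)|` is integrable -/
theorem int_dphi (s : ℂ) {κ : ℝ} (hκ : 0 < κ) (Y c : ℝ) :
    Integrable fun u : ℝ => Real.exp (c * u) * ‖dphi s κ Y u‖ := by
  set C : ℝ := 1 + ‖s‖ + (2 + |Y|) / (2 * κ) with hC
  have h1 := ((int_gk hκ Y (c - s.re + 1)).add (int_gk hκ Y (c - s.re - 1))).const_mul C
  refine h1.mono' ?_ (Eventually.of_forall fun u => ?_)
  · have := (continuous_dphi s κ Y).norm
    exact Continuous.aestronglyMeasurable (by fun_prop)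
  · rw [Real.norm_of_nonneg (by positivity), norm_dphi]
    have h2 := poly_le s hκ Y u
    have h3 : 0 ≤ Real.exp (c * u) * (Real.exp (-(s.re * u)) * gk κ (u - Y)) :=
      mul_nonneg (Real.exp_pos _).le (mul_nonneg (Real.exp_pos _).le (gk_pos_le _ _))
    have h4 := mul_le_mul_of_nonneg_left h2 h3
    have e1 : Real.exp ((c - s.re + 1) * u) = Real.exp (c * u) * Real.exp (-(s.re * u)) * Real.exp u := by
      rw [← Real.exp_add, ← Real.exp_add]
      congr 1
      ring
    have e2 : Real.exp ((c - s.re - 1) * u) = Real.exp (c * u) * Real.exp (-(s.re * u)) * Real.exp (-u) := by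
      rw [← Real.exp_add, ← Real.exp_add]
      congr 1
      ring
    simp only [Pi.add_apply]
    rw [e1, e2]
    calc _ = Real.exp (c * u) * (Real.exp (-(s.re * u)) * gk κ (u - Y)) *
        ‖1 - s * u - (u : ℂ) * (u - Y) / (2 * κ)‖ := by ring
      _ ≤ _ := h4
      _ = _ := by ring

theorem int_phi (s : ℂ) {κ : ℝ} (hκ : 0 < κ) (Y : ℝ) : Integrable (phi s κ Y) := by
  have h1 := (int_gk hκ Y (-s.re + 1)).add (int_gk hκ Y (-s.re - 1))
  refine h1.mono' (continuous_phi s κ Y).aestronglyMeasurable (Eventually.of_forall fun u => ?_)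
  rw [norm_phi]
  have h3 : |u| ≤ Real.exp u + Real.exp (-u) := by
    rcases le_total 0 u with h | h
    · rw [abs_of_nonneg h]
      linarith [Real.exp_pos (-u), Real.add_one_le_exp u]
    · rw [abs_of_nonpos h]
      linarith [Real.exp_pos u, Real.add_one_le_exp (-u)]
  have h4 : 0 ≤ Real.exp (-(s.re * u)) * gk κ (u - Y) := mul_nonneg (Real.exp_pos _).le (gk_pos_le _ _)
  have e1 : Real.exp ((-s.re + 1) * u) = Real.exp (-(s.re * u)) * Real.exp u := by
    rw [← Real.exp_add]
    congr 1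
    ring
  have e2 : Real.exp ((-s.re - 1) * u) = Real.exp (-(s.re * u)) * Real.exp (-u) := by
    rw [← Real.exp_add]
    congr 1
    ring
  simp only [Pi.add_apply]
  rw [e1, e2]
  calc _ ≤ (Real.exp u + Real.exp (-u)) * (Real.exp (-(s.re * u)) * gk κ (u - Y)) :=
      mul_le_mul_of_nonneg_right h3 h4
    _ = _ := by ring

/-- the fundamental theorem of calculus on `[L, ∞)` -/
theorem phi_eq (s : ℂ) {κ : ℝ} (hκ : 0 < κ) (Y a : ℝ) :
    phi s κ Y a = -∫ u in Ici a, dphi s κ Y u := by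
  have hi : Integrable (dphi s κ Y) := by
    have := int_dphi s hκ Y 0
    simp only [zero_mul, Real.exp_zero, one_mul] at this
    exact (integrable_norm_iff (continuous_dphi s κ Y).aestronglyMeasurable).1 this
  have ht : Tendsto (phi s κ Y) atTop (𝓝 0) :=
    tendsto_zero_of_hasDerivAt_of_integrableOn_Ioi (a := a) (fun x _ => hasDerivAt_phi s hκ Y x)
      hi.integrableOn (int_phi s hκ Y).integrableOn
  rw [integral_Ici_eq_integral_Ioi, integral_Ioi_of_hasDerivAt_of_tendsto
    (hasDerivAt_phi s hκ Y a).continuousAt.continuousWithinAt (fun x _ => hasDerivAt_phi s hκ Y x)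
    hi.integrableOn ht]
  ring

section sums

variable {ι : Type*} {d L : ι → ℝ}

theorem ite_bound (d L : ι → ℝ) (i : ι) (u : ℝ) : |(open Classical in if L i ≤ u then d i else 0)| ≤
    Real.exp (2 * u) * (|d i| * Real.exp (-(2 * L i))) := by
  split_ifs with h
  · have h1 : 1 ≤ Real.exp (2 * u) * Real.exp (-(2 * L i)) := by
      rw [← Real.exp_add]
      exact Real.one_le_exp (by linarith)
    calc |d i| = |d i| * 1 := (mul_one _).symm
      _ ≤ |d i| * (Real.exp (2 * u) * Real.exp (-(2 * L i))) := mul_le_mul_of_nonneg_left h1 (abs_nonneg _)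
      _ = _ := by ring
  · rw [abs_zero]
    positivity

theorem summ_ite (h2 : Summable fun i => |d i| * Real.exp (-(2 * L i))) (u : ℝ) :
    Summable fun i => (open Classical in if L i ≤ u then d i else 0) :=
  Summable.of_norm_bounded (h2.mul_left (Real.exp (2 * u))) fun i => by
    rw [Real.norm_eq_abs]
    exact ite_bound d L i u

theorem AA_le (h2 : Summable fun i => |d i| * Real.exp (-(2 * L i))) (u : ℝ) :
    |AA d L u| ≤ (∑' i, |d i| * Real.exp (-(2 * L i))) * Real.exp (2 * u) := by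
  unfold AA
  rw [mul_comm, ← tsum_mul_left]
  rw [← Real.norm_eq_abs]
  refine tsum_of_norm_bounded (h2.mul_left (Real.exp (2 * u))).hasSum fun i => ?_
  rw [Real.norm_eq_abs]
  exact ite_bound d L i u

theorem AA_mono (hd : ∀ i, 0 ≤ d i) (h2 : Summable fun i => |d i| * Real.exp (-(2 * L i))) :
    Monotone (AA d L) := by
  intro u v huv
  unfold AA
  refine Summable.tsum_le_tsum (fun i => ?_) (summ_ite h2 u) (summ_ite h2 v)
  split_ifs with h3 h4 h4
  · exact le_rfl
  · exact absurd (h3.trans huv) h4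
  · exact hd i
  · exact le_rfl

theorem AA_meas (h2 : Summable fun i => |d i| * Real.exp (-(2 * L i))) : Measurable (AA d L) := by
  have hp : Summable fun i => |max (d i) 0| * Real.exp (-(2 * L i)) := by
    refine Summable.of_nonneg_of_le (fun i => by positivity) (fun i => ?_) h2
    refine mul_le_mul_of_nonneg_right ?_ (Real.exp_pos _).le
    rw [abs_of_nonneg (le_max_right _ _)]
    exact max_le (le_abs_self _) (abs_nonneg _)
  have hn : Summable fun i => |max (-d i) 0| * Real.exp (-(2 * L i)) := by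
    refine Summable.of_nonneg_of_le (fun i => by positivity) (fun i => ?_) h2
    refine mul_le_mul_of_nonneg_right ?_ (Real.exp_pos _).le
    rw [abs_of_nonneg (le_max_right _ _)]
    exact max_le (neg_le_abs _) (abs_nonneg _)
  have h3 : AA d L = fun u => AA (fun i => max (d i) 0) L u - AA (fun i => max (-d i) 0) L u := by
    funext u
    unfold AA
    rw [← (summ_ite hp u).tsum_sub (summ_ite hn u)]
    refine tsum_congr fun i => ?_
    split_ifs
    · rcases le_total 0 (d i) with h | h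
      · rw [max_eq_left h, max_eq_right (by linarith), sub_zero]
      · rw [max_eq_right h, max_eq_left (by linarith)]
        ring
    · ring
  rw [h3]
  exact (AA_mono (fun i => le_max_right _ _) hp).measurable.sub
    (AA_mono (fun i => le_max_right _ _) hn).measurable

end sums

end Pool.Agent.TH645.TX

namespace Pool.Agent.TH645.TX

open Pool.Agent.TH949.TX

theorem t_parts {ι : Type*} [Countable ι] {d L : ι → ℝ} (hL : ∀ i, 0 ≤ L i)
    (h2 : Summable fun i => |d i| * Real.exp (-(2 * L i))) {s : ℂ} (hs : 0 ≤ s.re) {κ : ℝ} (hκ : 0 < κ) (Y : ℝ) :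
    Integrable (fun u : ℝ => |AA d L u| * (Real.exp (-(s.re * u)) * gk κ (u - Y)) *
      ‖1 - s * u - (u : ℂ) * (u - Y) / (2 * κ)‖) ∧
    ‖JJ d L s κ Y‖ ≤ ∫ u : ℝ, |AA d L u| * (Real.exp (-(s.re * u)) * gk κ (u - Y)) *
      ‖1 - s * u - (u : ℂ) * (u - Y) / (2 * κ)‖ := by
  have hG := int_dphi s hκ Y 2
  have hcd := continuous_dphi s κ Y
  have hi : Integrable (dphi s κ Y) := by
    have := int_dphi s hκ Y 0
    simp only [zero_mul, Real.exp_zero, one_mul] at this
    exact (integrable_norm_iff hcd.aestronglyMeasurable).1 this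
  set S : ℝ := ∑' i, |d i| * Real.exp (-(2 * L i)) with hS
  have e0 : ∀ u : ℝ, |AA d L u| * (Real.exp (-(s.re * u)) * gk κ (u - Y)) *
      ‖1 - s * u - (u : ℂ) * (u - Y) / (2 * κ)‖ = |AA d L u| * ‖dphi s κ Y u‖ := by
    intro u
    rw [norm_dphi]
    ring
  simp_rw [e0]
  have hint : Integrable fun u : ℝ => |AA d L u| * ‖dphi s κ Y u‖ := by
    refine (hG.const_mul S).mono' ?_ (Eventually.of_forall fun u => ?_)
    · exact ((AA_meas h2).abs.mul hcd.norm.measurable).aestronglyMeasurable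
    · rw [Real.norm_of_nonneg (by positivity)]
      have := mul_le_mul_of_nonneg_right (AA_le h2 u) (norm_nonneg (dphi s κ Y u))
      calc _ ≤ _ := this
        _ = _ := by ring
  refine ⟨hint, ?_⟩
  -- the interchange
  set F : ι → ℝ → ℂ := fun i u => (d i : ℂ) * (Ici (L i)).indicator (dphi s κ Y) u with hF
  have hFi : ∀ i, Integrable (F i) := fun i => (hi.indicator measurableSet_Ici).const_mul _
  have hFn : ∀ i u, ‖F i u‖ ≤ (|d i| * Real.exp (-(2 * L i))) * (Real.exp (2 * u) * ‖dphi s κ Y u‖) := by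
    intro i u
    rw [hF]
    simp only
    rw [norm_mul, Complex.norm_real, Real.norm_eq_abs]
    by_cases hu : L i ≤ u
    · rw [indicator_of_mem (mem_Ici.2 hu)]
      have h1 : 1 ≤ Real.exp (2 * u) * Real.exp (-(2 * L i)) := by
        rw [← Real.exp_add]
        exact Real.one_le_exp (by linarith)
      have h3 : 0 ≤ |d i| * ‖dphi s κ Y u‖ := by positivity
      calc |d i| * ‖dphi s κ Y u‖ = |d i| * ‖dphi s κ Y u‖ * 1 := (mul_one _).symm
        _ ≤ |d i| * ‖dphi s κ Y u‖ * (Real.exp (2 * u) * Real.exp (-(2 * L i))) := mul_le_mul_of_nonneg_left h1 h3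
        _ = _ := by ring
    · rw [indicator_of_notMem (by simpa using hu), norm_zero, mul_zero]
      positivity
  have hFs : Summable fun i => ∫ u, ‖F i u‖ := by
    refine Summable.of_nonneg_of_le (fun i => integral_nonneg fun u => norm_nonneg _) (fun i => ?_)
      (h2.mul_right (∫ u, Real.exp (2 * u) * ‖dphi s κ Y u‖))
    rw [← integral_const_mul]
    exact integral_mono (hFi i).norm (hG.const_mul _) fun u => hFn i u
  have hsum := hasSum_integral_of_summable_integral_norm hFi hFs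
  have e1 : ∀ i, ∫ u, F i u = -(((d i * L i : ℝ) : ℂ) * cexp (-(s * L i)) * (gk κ (L i - Y) : ℂ)) := by
    intro i
    rw [hF]
    simp only
    rw [integral_const_mul, integral_indicator measurableSet_Ici]
    have h3 := phi_eq s hκ Y (L i)
    have h4 : ∫ u in Ici (L i), dphi s κ Y u = -phi s κ Y (L i) := by rw [h3, neg_neg]
    rw [h4]
    unfold phi
    push_cast
    ring
  have e2 : ∀ u, ∑' i, F i u = (AA d L u : ℂ) * dphi s κ Y u := by
    intro u
    unfold AA
    rw [Complex.ofReal_tsum, ← tsum_mul_right]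
    refine tsum_congr fun i => ?_
    rw [hF]
    simp only
    by_cases hu : L i ≤ u
    · rw [indicator_of_mem (mem_Ici.2 hu), if_pos hu]
    · rw [indicator_of_notMem (by simpa using hu), if_neg hu]
      simp
  have e3 : JJ d L s κ Y = -∫ u, (AA d L u : ℂ) * dphi s κ Y u := by
    have h5 := hsum.tsum_eq
    simp_rw [e2] at h5
    rw [← h5]
    unfold JJ
    simp_rw [e1]
    rw [tsum_neg, neg_neg]
  rw [e3, norm_neg]
  refine (norm_integral_le_integral_norm _).trans (le_of_eq ?_)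
  refine integral_congr_ae (Eventually.of_forall fun u => ?_)
  simp only
  rw [norm_mul, Complex.norm_real, Real.norm_eq_abs]

end Pool.Agent.TH645.TX
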